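import Pool.Agent.V11103.EFCert1
import Pool.Agent.V11103.EFCert2
import Pool.Agent.V11103.EFCert3
import Pool.Agent.V11103.EFCert4
import Pool.Agent.V11103.EFCert5
import Pool.Agent.V11103.EFCert6
import Pool.Agent.V11103.EFCert7
import Pool.Agent.V11103.EFCert8
import Pool.Agent.V11103.EFCert9

/-!
There is a connected non-traceable graph (on ten vertices) that universally guarantees connected
EF1 (outer) allocations for all common additive profiles.
-/

namespace Pool.Agent.Results.MP_7d34d8_co.NonTraceableUniversalCA

open Pool.Agent.V11103.EF

/-- The ten-vertex graph `exGraph` is connected, has no Hamiltonian path, and for every number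
`n ≥ 1` of agents and every CA profile it has a connected EF1 (outer) allocation. -/
theorem result : exGraph.Connected ∧ ¬ Traceable exGraph ∧ UniversallyGuaranteesCA exGraph := by
  refine ⟨connected_exGraph, not_traceable, universal_of_good fun n h1 h9 w hw => ?_⟩
  interval_cases n
  · exact good1 w hw
  · exact good2 w hw
  · exact good3 w hw
  · exact good4 w hw
  · exact good5 w hw
  · exact good6 w hw
  · exact good7 w hw
  · exact good8 w hw
  · exact good9 w hw

end Pool.Agent.Results.MP_7d34d8_co.NonTraceableUniversalCA
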